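import Pool.Agent.Results.MP_dd1803_nt.MultiParameterFamilies
import Pool.Agent.X134.Win.MembI

/-!
# MP_dd1803_nt: Zilber-Pink in `∏_g E_g^(n_g) × G_m^k` for all the members in short cubes, of all families
over a countable field at once

Let `K ⊂ ℂ` be a countable field, `q ≥ 1` and `ρ ≥ 0` be fixed, `v ≥ 1` a sequence of exponent of
convergence at most `τ` (`τ = 0` for `v_l = b ^ l`, `τ = 1 / b` for `v_l = (l + 1) ^ b`) and `θ < 1`.

**Theorem.** There is one set `E` in `ℝ ^ q` of Hausdorff dimension at most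
`(q - 1 + ρ + τ) / (1 - θ)` such that for each `α` outside of `E` the following holds for ALL semiabelian
varieties `𝔖 = ∏_g E_g^(n_g) × G_m^k` with elliptic curves `E_g` over `K` (with or without complex
multiplication) and ALL families `X_u` of subsets of `𝔖` over `K` (any dimension `m`) with `q` parameters
which degenerate along sufficiently many hypersurfaces `h_l = 0` of degree at most `Δ ≤ ρ β` as in our
`MultiParameterFamilies` (see there): for all large `l`, for ALL integral vectors `u` in the cube with the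
centre `v_l α` and the side `2 v_l ^ θ` the set `X_u` has no atypical intersection with the special
subvarieties of `𝔖`, in all dimensions.

The set `E` is small (of dimension less than `q`) if `θ q + ρ + τ < 1`, and then almost all `α` are
outside of `E`. For each `ρ > 0` the numbers `β` can be large primes (see `MultiParameterFamilies`). The
number of the integral points in the cubes is about `(2 v_l ^ θ) ^ q`.

In `MultiParameterFamilies` the number of the exceptional parameters in the box of size `H` is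
`O(H ^ (q - 1 + Δ / β + ε))`; they could contain all the members in short cubes. Proof: a covering
argument (`Pool.Agent.X174.windowsVec`), and there are only countably many families.
-/

set_option autoImplicit false

namespace Pool.Agent.Results.MP_dd1803_nt.MembersInCubes

open MvPolynomial MeasureTheory Pool.Agent.X295 Pool.Agent.X295.Ell

/-- the exponent of convergence of the sequence `v` is at most `τ` -/
def ExpLe (v : ℕ → ℝ) (τ : ℝ) : Prop := ∀ t : ℝ, τ < t → Summable (fun n : ℕ => (v n) ^ (-t))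

/-- for all degenerating families with `q` parameters over `K`, with `Δ ≤ ρ β`: for all large `l` all
members with integral parameter vectors in the cube with the centre `v_l α` and the side `2 v_l ^ θ`
have no atypical intersection -/
def AllMembers (K : Subfield ℂ) (q : ℕ) (ρ : ℝ) (v : ℕ → ℝ) (α : Fin q → ℝ) (θ : ℝ) : Prop :=
  ∀ (s N r k m M : ℕ) (a b : Fin r → ℂ), (∀ g, a g ∈ K) → (∀ g, b g ∈ K) → ∀ (n : Fin r → ℕ)
    (G : Fin s → MvPolynomial (Fin (N + 1)) (MvPolynomial (Fin q) K)),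
    (∀ k, ∃ e, (G k).IsHomogeneous e) → ∀
    (A B : Ind n k → MvPolynomial (Fin (N + 1)) (MvPolynomial (Fin q) K)) (w : Ind n k → ℕ),
    (∀ i, (A i).IsHomogeneous (w i)) → (∀ i, (B i).IsHomogeneous (w i)) → ∀
    (F₁ F₂ : ((g : Fin r) × Fin (n g)) → Polynomial K), (∀ i, 0 < pord (F₁ i) (F₂ i)) → ∀
    (c : Ind n k → MvPolynomial (Fin q) K) (h : Fin M → MvPolynomial (Fin q) ℤ)
    (e : Fin M → Ind n k → ℕ),
    (∀ l, DegeneratesAlongK m G A B c (MvPolynomial.map (Int.castRingHom K) (h l)) (e l)) →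
    ∀ (β : ℕ), 0 < β → IndepE β (fun i => pord (F₁ i) (F₂ i)) e → torusPlaces k m + 1 ≤ M →
    (∀ l, ((h l).totalDegree : ℝ) ≤ ρ * β) → ∀ (Γ : Finset ℂ), (∀ γ ∈ Γ, γ ∈ K) →
    ∃ l₀ : ℕ, ∀ l : ℕ, l₀ ≤ l → ∀ u : Fin q → ℤ, (∀ j, |(u j : ℝ) - α j * v l| ≤ (v l) ^ θ) →
      NoAtypical K Γ m (member (a := a) (b := b) (fun j => (u j : ℂ)) G A B F₁ F₂ c)

section Proof

/-- the data -/
abbrev Idx (K : Subfield ℂ) (q : ℕ) : Type :=
  Σ s : ℕ, Σ N : ℕ, Σ r : ℕ, Σ k : ℕ, Σ n : Fin r → ℕ, ℕ × (Fin r → K) × (Fin r → K) ×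
    (Fin s → MvPolynomial (Fin (N + 1)) (MvPolynomial (Fin q) K)) ×
    (Ind n k → MvPolynomial (Fin (N + 1)) (MvPolynomial (Fin q) K)) ×
    (Ind n k → MvPolynomial (Fin (N + 1)) (MvPolynomial (Fin q) K)) ×
    (((g : Fin r) × Fin (n g)) → Polynomial K) × (((g : Fin r) × Fin (n g)) → Polynomial K) ×
    (Ind n k → MvPolynomial (Fin q) K) × {Γ : Finset ℂ // ∀ γ ∈ Γ, γ ∈ (K : Set ℂ)}

theorem countable_idx (K : Subfield ℂ) [Countable K] (q : ℕ) : Countable (Idx K q) := by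
  have h0 := Pool.Agent.X134.Win.countable_mvPolynomial (Fin q) K
  have h1 : ∀ N : ℕ, Countable (MvPolynomial (Fin (N + 1)) (MvPolynomial (Fin q) K)) := fun N =>
    Pool.Agent.X134.Win.countable_form K (Fin (N + 1)) q
  have h2 := Pool.Agent.X134.Win.countable_polynomial K
  have h3 := Pool.Agent.X134.Win.countable_finset (s := (K : Set ℂ)) (Set.countable_coe_iff.1 ‹_›)
  have h4 : ∀ (s N r k : ℕ) (n : Fin r → ℕ), Countable (ℕ × (Fin r → K) × (Fin r → K) ×
    (Fin s → MvPolynomial (Fin (N + 1)) (MvPolynomial (Fin q) K)) ×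
    (Ind n k → MvPolynomial (Fin (N + 1)) (MvPolynomial (Fin q) K)) ×
    (Ind n k → MvPolynomial (Fin (N + 1)) (MvPolynomial (Fin q) K)) ×
    (((g : Fin r) × Fin (n g)) → Polynomial K) × (((g : Fin r) × Fin (n g)) → Polynomial K) ×
    (Ind n k → MvPolynomial (Fin q) K) × {Γ : Finset ℂ // ∀ γ ∈ Γ, γ ∈ (K : Set ℂ)}) :=
    fun _ _ _ _ _ => inferInstance
  exact @instCountableSigma _ _ _ fun s => @instCountableSigma _ _ _ fun N =>
    @instCountableSigma _ _ _ fun r => @instCountableSigma _ _ _ fun k =>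
      @instCountableSigma _ _ _ fun n => h4 s N r k n

/-- the hypotheses for the data -/
def Hyp (K : Subfield ℂ) (q : ℕ) (ρ : ℝ) (x : Idx K q) : Prop :=
  match x with
  | ⟨_, _, _, k, n, m, _, _, G, A, B, F₁, F₂, c, _⟩ => (∀ k, ∃ e, (G k).IsHomogeneous e) ∧
    (∃ w : Ind n k → ℕ, (∀ i, (A i).IsHomogeneous (w i)) ∧ (∀ i, (B i).IsHomogeneous (w i))) ∧
    (∀ i, 0 < pord (F₁ i) (F₂ i)) ∧
    ∃ (M : ℕ) (h : Fin M → MvPolynomial (Fin q) ℤ) (e : Fin M → Ind n k → ℕ) (β : ℕ),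
      (∀ l, DegeneratesAlongK m G A B c (MvPolynomial.map (Int.castRingHom K) (h l)) (e l)) ∧
      0 < β ∧ IndepE β (fun i => pord (F₁ i) (F₂ i)) e ∧ torusPlaces k m + 1 ≤ M ∧
      (∀ l, ((h l).totalDegree : ℝ) ≤ ρ * β)

/-- the conclusion for the data -/
def Good (K : Subfield ℂ) (q : ℕ) (x : Idx K q) (u : Fin q → ℤ) : Prop :=
  match x with
  | ⟨_, _, _, _, _, m, a, b, G, A, B, F₁, F₂, c, Γ⟩ => NoAtypical K Γ.1 m
    (member (a := fun g => (a g : ℂ)) (b := fun g => (b g : ℂ)) (fun j => (u j : ℂ)) G A B F₁ F₂ c)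

end Proof

/-- **Theorem.** See the header. -/
theorem result :
    (∀ (K : Subfield ℂ) [Countable K] (q : ℕ) (ρ : ℝ), 0 < q → 0 ≤ ρ → ∀ (v : ℕ → ℝ) (τ θ : ℝ),
      (∀ l, 1 ≤ v l) → 0 ≤ τ → ExpLe v τ → θ < 1 →
      ∃ E : Set (Fin q → ℝ),
        dimH E ≤ ENNReal.ofReal (((q : ℝ) - 1 + ρ + τ) / (1 - θ)) ∧
        ∀ α : Fin q → ℝ, α ∉ E → AllMembers K q ρ v α θ) ∧
    (∀ b : ℝ, 0 < b → ExpLe (fun n : ℕ => ((n : ℝ) + 1) ^ b) (1 / b)) ∧
    (∀ b : ℝ, 1 < b → ExpLe (fun n : ℕ => b ^ n) 0) := by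
  classical
  refine ⟨fun K _ q ρ hq hρ v τ θ hv hτ hE hθ => ?_, fun b hb => Pool.Agent.Y854.GM.expLe_pow b hb,
    fun b hb => Pool.Agent.Y854.GM.expLe_geom b hb⟩
  have hcf := countable_idx K q
  have hs : (0 : ℝ) ≤ (q : ℝ) - 1 + ρ := by
    have h1 : (1 : ℝ) ≤ q := by exact_mod_cast hq
    linarith
  obtain ⟨E, hE1, hE2⟩ := Pool.Agent.X134.Win.membV_c (ι := Idx K q)
    (fun x u => Hyp K q ρ x → Good K q x u) hs (by
      rintro ⟨s, N, r, k, n, m, a, b, G, A, B, F₁, F₂, c, Γ⟩ ε hε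
      by_cases hyp : Hyp K q ρ ⟨s, N, r, k, n, m, a, b, G, A, B, F₁, F₂, c, Γ⟩
      · obtain ⟨h1, ⟨w, h2, h3⟩, h4, M, h, e, β, h5, h6, h7, h8, h9⟩ := id hyp
        have hβ : (0 : ℝ) < β := by exact_mod_cast h6
        have hΔ : ((Finset.univ.sup fun l => (h l).totalDegree : ℕ) : ℝ) / β ≤ ρ := by
          rw [div_le_iff₀ hβ]
          rcases Finset.eq_empty_or_nonempty (Finset.univ : Finset (Fin M)) with hM | hM
          · rw [hM, Finset.sup_empty]
            have : (0 : ℝ) ≤ ρ * β := by positivity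
            simpa using this
          · obtain ⟨l, _, hl⟩ := Finset.exists_mem_eq_sup _ hM fun l => (h l).totalDegree
            rw [hl]
            exact h9 l
        obtain ⟨C, hC⟩ := MultiParameterFamilies.result K (Fin s) q N r k m M
          (fun g => (a g : ℂ)) (fun g => (b g : ℂ)) (fun g => (a g).2) (fun g => (b g).2) n G h1 A B w
          h2 h3 F₁ F₂ h4 c h e h5 β h6 h7 h8 Γ.1 Γ.2 (Finset.univ.sup fun l => (h l).totalDegree)
          (fun l => Finset.le_sup (f := fun l => (h l).totalDegree) (Finset.mem_univ l)) ε hε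
        refine ⟨|C|, fun H hH => ?_⟩
        have h10 : {u : Fin q → ℤ | (∀ j, |u j| ≤ H) ∧
            ¬ (Hyp K q ρ ⟨s, N, r, k, n, m, a, b, G, A, B, F₁, F₂, c, Γ⟩ →
              Good K q ⟨s, N, r, k, n, m, a, b, G, A, B, F₁, F₂, c, Γ⟩ u)} =
            {u : Fin q → ℤ | (∀ j, |u j| ≤ H) ∧ ¬ NoAtypical K Γ.1 m
              (member (a := fun g => (a g : ℂ)) (b := fun g => (b g : ℂ)) (fun j => (u j : ℂ))
                G A B F₁ F₂ c)} := by
          ext u
          exact ⟨fun hu => ⟨hu.1, fun hg => hu.2 fun _ => hg⟩, fun hu => ⟨hu.1, fun hg => hu.2 (hg hyp)⟩⟩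
        rw [h10]
        have hH1 : (1 : ℝ) ≤ (H : ℝ) := by exact_mod_cast hH
        refine (hC H hH).trans ?_
        calc C * (H : ℝ) ^ ((q : ℝ) - 1 +
              ((Finset.univ.sup fun l => (h l).totalDegree : ℕ) : ℝ) / β + ε)
            ≤ |C| * (H : ℝ) ^ ((q : ℝ) - 1 +
              ((Finset.univ.sup fun l => (h l).totalDegree : ℕ) : ℝ) / β + ε) :=
              mul_le_mul_of_nonneg_right (le_abs_self _) (Real.rpow_nonneg (Nat.cast_nonneg _) _)
          _ ≤ |C| * (H : ℝ) ^ ((q : ℝ) - 1 + ρ + ε) :=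
              mul_le_mul_of_nonneg_left (Real.rpow_le_rpow_of_exponent_le hH1 (by linarith))
                (abs_nonneg _)
      · refine ⟨0, fun H _ => ?_⟩
        have h10 : {u : Fin q → ℤ | (∀ j, |u j| ≤ H) ∧
            ¬ (Hyp K q ρ ⟨s, N, r, k, n, m, a, b, G, A, B, F₁, F₂, c, Γ⟩ →
              Good K q ⟨s, N, r, k, n, m, a, b, G, A, B, F₁, F₂, c, Γ⟩ u)} = ∅ :=
          Set.eq_empty_iff_forall_notMem.2 fun u hu => hu.2 fun h => absurd h hyp
        rw [h10, Set.ncard_empty, Nat.cast_zero, zero_mul]) hv hτ hE hθ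
  refine ⟨E, hE1, fun α hα => ?_⟩
  intro s N r k m M a b ha hb n G h1 A B w h2 h3 F₁ F₂ h4 c h e h5 β h6 h7 h8 h9 Γ hΓ
  obtain ⟨l₀, hl₀⟩ := hE2 α hα
    ⟨s, N, r, k, n, m, (fun g => ⟨a g, ha g⟩), (fun g => ⟨b g, hb g⟩), G, A, B, F₁, F₂, c, ⟨Γ, hΓ⟩⟩
  exact ⟨l₀, fun l hl u hu => hl₀ l hl u hu ⟨h1, ⟨w, h2, h3⟩, h4, M, h, e, β, h5, h6, h7, h8, h9⟩⟩

end Pool.Agent.Results.MP_dd1803_nt.MembersInCubes
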