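import Pool.Agent.X295.EllD

/-!
# MP_dd1803_nt: Zilber-Pink in `∏_g E_g^(n_g) × G_m^k` for the members of families with any number of
parameters, outside of a set of parameters of almost the size of a hypersurface

Let `E_g : y² = x³ + a_g x + b_g`, `g = 1, …, r`, be elliptic curves over a countable field `K ⊂ ℂ`,
with or without complex multiplication. The ambient semiabelian variety is
`𝔖 = ∏_g E_g^(n_g) × G_m^k` (`Amb`), with the coordinates `x (P_{g,i})` and `t_j` (`coords`).

**Families.** We consider algebraic families `X_u` of subsets of `𝔖` with `q` parameters
`u = (u_1, …, u_q)`, given by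
* a family `B_u ⊆ P^N` of projective algebraic sets, defined by forms `G` with coefficients in
  `K[u_1, …, u_q]`,
* quotients `A_i / B_i` of forms of the same degree with coefficients in `K[u]`, one for
  every coordinate,
* for every point `P_i` a function `f_i = F₁ i (x) + F₂ i (x) y` on its elliptic curve, regular outside
  of the origin, with a pole of order `d_i = pord (F₁ i) (F₂ i) > 0` at the origin (for example `x`,
  `y`, or `x^s`),
* polynomials `c_i ∈ K[u]`;
`X_u` (`member`) is the set of all `(P, t)` such that for some `y ∈ B_u` we have
`c_i (u) f_i (P_i) = A_i (y) / B_i (y)` and `c_j (u) t_j = A_j (y) / B_j (y)`.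

**Degenerate divisors.** Let `h_1, …, h_M` be polynomials in `u` with integral coefficients, of
degrees at most `Δ`, irreducible over `ℂ`. The family degenerates along the hypersurfaces `h_l = 0` of
the space of parameters in the following sense (`DegeneratesAlongK`):
* `c_i` vanishes along `h_l = 0` exactly to the order `e_{l i}`, and
* at one point `u` of the hypersurface `h_l = 0` (algebraic over `K`) no point of `B_u` lies on
  `m + 1` of the divisors of the `A_i / B_i`.

**Theorem.** Suppose that (`IndepE`) `e_{l i} > 0`, that `4 e_{l i} > d_i` for the points `P_i`, that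
`2 μ (e_{l i} / d_i - e_{l j} / d_j)` is not an integer, for different points `P_i`, `P_j` on the same
elliptic curve and all integers `μ` not divisible by `β`, and that all square minors of the matrix of
the orders `e_{l j}` of the torus coordinates are nonzero (for example `e_{l j} = l ^ j`). Let
`M > max {(k - 1 - s) C(k, s) : 0 ≤ s ≤ m}` (`torusPlaces`), so for `k ≤ 1` one divisor is sufficient.
Then, for each `ε > 0`, for all but `O(H^(q - 1 + Δ / β + ε))` of the integral vectors `u` with
`|u_j| ≤ H` the set `X_u` has no atypical intersection with the special subvarieties `Z`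
of `𝔖`: every point of `X_u ∩ Z` has transcendence degree at most `m - codim Z` over `K`, and every
irreducible constructible set of points of `X_u ∩ Z` has dimension at most `m - codim Z`. In
particular `X_u ∩ Z` is empty if the codimension of `Z` is larger than `m`.

An example for the conditions: `β` is an odd prime number larger than `Δ`, all `d_i` are equal to `β`,
and for each `l` the numbers `e_{l i} > β / 4` are incongruent to each other modulo `β` for the points
on the same elliptic curve.

The sets `Z` (`Special`): for each `g` the points `P_{g,i}` satisfy linear relations up to torsion,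
with integral coefficients or, if `E_g` has complex multiplication, with coefficients in the order
generated by an endomorphism `φ` (`CMEnd`), and `t` lies on a coset of an algebraic subgroup by a
point `η` such that the `η_j` and `1 / η_j` are integral over `ℤ[Γ]`, `Γ ⊂ K` finite (for example
roots of unity, or all points of the division hull of a finitely generated subgroup of `G_m (K)^k`).
If the curves `E_g` are pairwise not isogenous, then every torsion coset of `𝔖` is a component
of a set `Z` of the same codimension.

The starting file `EllipticScaledImages` on this problem is about constant `B_u = Y` and scalings by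
roots of integers, `(q - 1) 2^q + 1` of which have to be spread out, and without complex
multiplication; here everything can vary with the parameters, their number is arbitrary and the
hypersurfaces `h_l = 0` are arbitrary.

The proof: (a) elimination theory over the ring `K[u]`: general position at one point of `h_l = 0`
gives general position modulo all large prime numbers `p` which divide `h_l (u)` and which do not
divide a certain number `ρ_l (u)`, where `ρ_l` does not contain one of the variables; (b) the number of
the `u` for which all such `p` have exponents divisible by `β` in `h_l (u)` is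
`O(H^(q - 1 + Δ / β + ε))`; (c) at a place over such a prime number all but `m` coordinates of a
point of `X_u` have poles of prescribed orders, and relations between points in the formal
groups of the curves with incongruent values are impossible.
-/

set_option autoImplicit false

namespace Pool.Agent.Results.MP_dd1803_nt.MultiParameterFamilies

open MvPolynomial Pool.Agent.X295 Pool.Agent.X295.Ell

/-- Zilber-Pink in `∏_g E_g^(n_g) × G_m^k` for families with `q` parameters which degenerate along
sufficiently many hypersurfaces, for all but `O(H^(q - 1 + Δ / β + ε))` of the integral parameters in a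
box of size `H`. -/
theorem result (K : Subfield ℂ) [Countable K] (κ : Type) [Finite κ] (q N r k m M : ℕ)
    (a b : Fin r → ℂ) (ha : ∀ g, a g ∈ K) (hb : ∀ g, b g ∈ K) (n : Fin r → ℕ)
    (G : κ → MvPolynomial (Fin (N + 1)) (MvPolynomial (Fin q) K))
    (hG : ∀ k, ∃ e, (G k).IsHomogeneous e)
    (A B : Ind n k → MvPolynomial (Fin (N + 1)) (MvPolynomial (Fin q) K))
    (w : Ind n k → ℕ)
    (hA : ∀ i, (A i).IsHomogeneous (w i)) (hB : ∀ i, (B i).IsHomogeneous (w i))
    (F₁ F₂ : ((g : Fin r) × Fin (n g)) → Polynomial K) (hd : ∀ i, 0 < pord (F₁ i) (F₂ i))
    (c : Ind n k → MvPolynomial (Fin q) K)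
    (h : Fin M → MvPolynomial (Fin q) ℤ)
    (e : Fin M → Ind n k → ℕ)
    (hdeg : ∀ l, DegeneratesAlongK m G A B c (MvPolynomial.map (Int.castRingHom K) (h l)) (e l))
    (β : ℕ) (hβ : 0 < β) (hind : IndepE β (fun i => pord (F₁ i) (F₂ i)) e)
    (hM : torusPlaces k m + 1 ≤ M) (Γ : Finset ℂ) (hΓ : ∀ γ ∈ Γ, γ ∈ K)
    (Δ : ℕ) (hΔ : ∀ l, (h l).totalDegree ≤ Δ) (ε : ℝ) (hε : 0 < ε) :
    ∃ C : ℝ, ∀ H : ℕ, 1 ≤ H →
      ({u : Fin q → ℤ | (∀ j, |u j| ≤ H) ∧
        ¬ NoAtypical K Γ m (member (a := a) (b := b) (fun j => (u j : ℂ)) G A B F₁ F₂ c)}.ncard : ℝ) ≤
          C * (H : ℝ) ^ ((q : ℝ) - 1 + Δ / β + ε) :=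
  mainEll K κ q N r k m M a b ha hb n G hG A B w hA hB F₁ F₂ hd c h e hdeg β hβ hind hM Γ hΓ Δ hΔ
    ε hε

end Pool.Agent.Results.MP_dd1803_nt.MultiParameterFamilies
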