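import Pool.Agent.Results.MP_dd1803_nt.EllipticExtensions
import Pool.Agent.X174.WinRat

/-!
# Zilber-Pink for ALL `S`-unit translates with exponents in cubes, in extensions of elliptic curves by tori

Let `G` be the extension of an elliptic curve `E` over `ℂ` by `G_m^k`, `k ≥ 1`, with the classes of points `Q_1, …, Q_k` of
`E`, and `V` an arbitrary algebraic subset of `G` of dimension `m`, without component of dimension `m` over a torsion point
of `E`. There is `K`, depending on `V`, such that for all `N > K t` different primes `p_i`, every sequence `v ≥ 1` of exponent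
of convergence at most `τ` (for `v_i = (i + 1) ^ a` this is `1 / a`, for `v_i = b ^ i` it is `0`) and every `ρ < 1` there is a
set of Hausdorff dimension at most `(k N + k - 1 - t + τ) / (1 - ρ)` in `ℝ^(k N)` such that for each `x` outside it, for all
but finitely many `n`: for ALL integral matrices `e` in the cube with centre `x v_n` and side `2 v_n ^ ρ` the translate of
`V` by the point `g` of the torus with the coordinates `g_j = ∏_i p_i ^ e_ij` has NO atypical intersection with a torsion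
coset. For `t = k` the dimension is smaller than `k N` if `τ + k N ρ < 1`.

The number of exceptions is from the starting result `EllipticExtensions`.
-/

set_option autoImplicit false

namespace Pool.Agent.Results.MP_dd1803_nt.TranslatesInCubes

open EllipticExtensions (E DimLE FibreDimLT NoAtypical translate)

/-- the exponent of convergence of the sequence `v` is at most `τ` -/
def ExpLe (v : ℕ → ℝ) (τ : ℝ) : Prop := ∀ t : ℝ, τ < t → Summable (fun n : ℕ => (v n) ^ (-t))

/-- **Theorem.** Let `E : y² = x³ + a x + b` be an elliptic curve over `ℂ`, `k ≥ 1`, `Q_1, …, Q_k ∈ E` points such that those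
different from `O` are linearly independent modulo torsion, `G` the extension of `E` by `G_m^k` with these classes and `V` a
subset of `G` of dimension at most `m` whose fibres over the torsion points of `E` have dimension less than `m`. There is `K`
such that for all `N`, `t` with `K t < N`, all different primes `p_1, …, p_N`, every sequence `v ≥ 1` of exponent of
convergence at most `τ ≥ 0` and every `ρ < 1` there is a set `A ⊂ ℝ^(N × k)` of Hausdorff dimension at most
`(k N + k - 1 - t + τ) / (1 - ρ)` such that for each `x` outside `A`, for all but finitely many `n`, ALL integral matrices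
`e` with `|e_ij - x_ij v_n| ≤ v_n ^ ρ` have the property: the translate of `V` by `(∏_i p_i ^ e_ij)_j` has no atypical
intersection with a torsion coset of `G`. The sequences `v_n = (n + 1) ^ a` and `v_n = b ^ n` have exponent of convergence at
most `1 / a` and `0`. -/
theorem result :
    (∀ (a b : ℂ), 4 * a ^ 3 + 27 * b ^ 2 ≠ 0 → ∀ (k m : ℕ), 1 ≤ k → ∀ (Q : Fin k → E a b),
      (∀ c : Fin k → ℤ, (∃ n : ℕ, 0 < n ∧ n • ∑ i, c i • Q i = 0) → ∀ i, Q i ≠ 0 → c i = 0) →
      ∀ (V : Set (E a b × (Fin k → ℂ))), DimLE m V →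
      (∀ P : E a b, (∃ n : ℕ, 0 < n ∧ n • P = 0) → FibreDimLT m V P) →
      ∃ K : ℕ, ∀ N t : ℕ, K * t < N → ∀ p : Fin N → ℕ, (∀ i, (p i).Prime) → Function.Injective p →
        ∀ (v : ℕ → ℝ) (τ ρ : ℝ), (∀ n, 1 ≤ v n) → 0 ≤ τ → ExpLe v τ → ρ < 1 →
        ∃ A : Set (Fin N × Fin k → ℝ),
          dimH A ≤ ENNReal.ofReal (((k : ℝ) * N + k - 1 - t + τ) / (1 - ρ)) ∧
          ∀ x : Fin N × Fin k → ℝ, x ∉ A → ∃ n₀ : ℕ, ∀ n : ℕ, n₀ ≤ n →
            ∀ e : Fin N → Fin k → ℤ, (∀ i j, |(e i j : ℝ) - x (i, j) * v n| ≤ (v n) ^ ρ) →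
              NoAtypical Q m (translate (fun j => ∏ i, (p i : ℂ) ^ e i j) V)) ∧
    (∀ a : ℝ, 0 < a → ExpLe (fun n : ℕ => ((n : ℝ) + 1) ^ a) (1 / a)) ∧
    (∀ b : ℝ, 1 < b → ExpLe (fun n : ℕ => b ^ n) 0) := by
  classical
  refine ⟨fun a b hab k m hk Q hQ V hV hfib => ?_, fun κ hκ => Pool.Agent.Y854.GM.expLe_pow κ hκ,
    fun b hb => Pool.Agent.Y854.GM.expLe_geom b hb⟩
  obtain ⟨K, hK⟩ := EllipticExtensions.result a b hab k m Q hQ V hV hfib
  refine ⟨K + 1, fun N t hNt p hp hpi v τ ρ hv hτ hE hρ => ?_⟩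
  have hN : K * t < N := lt_of_le_of_lt (Nat.mul_le_mul_right _ (Nat.le_succ K)) hNt
  have htN : t < N := lt_of_le_of_lt (Nat.le_mul_of_pos_left t (Nat.succ_pos K)) hNt
  obtain ⟨c, hc⟩ := hK N t hN p hp hpi
  have hk1 : (1 : ℝ) ≤ k := by exact_mod_cast hk
  have htN' : (t : ℝ) ≤ N := by exact_mod_cast htN.le
  have hN0 : (0 : ℝ) ≤ N := Nat.cast_nonneg N
  have hs : 0 ≤ (k : ℝ) * N + k - 1 - t := by nlinarith
  have hkN : N ≤ k * N := Nat.le_mul_of_pos_left N hk
  obtain ⟨A, hA1, hA2⟩ := Pool.Agent.X174.winFam (κ := Fin N × Fin k) (Q := Fin N → Fin k → ℤ)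
    (fun e q => (e q.1 q.2 : ℝ))
    (fun T => {e : Fin N → Fin k → ℤ | (∀ i j, |e i j| ≤ ((⌊T⌋₊ : ℕ) : ℤ)) ∧
      ¬ NoAtypical Q m (translate (fun j => ∏ i, (p i : ℂ) ^ e i j) V)})
    (s := (k : ℝ) * N + k - 1 - t) (C := (c : ℝ) * 3 ^ ((k : ℝ) * N + k - 1 - t)) hs
    (fun T hT => by
      set H : ℕ := ⌊T⌋₊ with hH
      have hT1 : 1 ≤ H := Nat.le_floor (by exact_mod_cast hT)
      have hT2 : (1 : ℝ) ≤ (H : ℝ) := by exact_mod_cast hT1
      have hHT : (H : ℝ) ≤ T := Nat.floor_le (by linarith)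
      have hfin : {e : Fin N → Fin k → ℤ | (∀ i j, |e i j| ≤ (H : ℤ)) ∧
          ¬ NoAtypical Q m (translate (fun j => ∏ i, (p i : ℂ) ^ e i j) V)}.Finite := by
        have hbig : {e : Fin N → Fin k → ℤ | ∀ i j, |e i j| ≤ (H : ℤ)}.Finite := by
          have h1 : {e : Fin N → Fin k → ℤ | ∀ i, e i ∈ {f : Fin k → ℤ | ∀ j, f j ∈ Set.Icc (-(H : ℤ)) H}}.Finite :=
            Set.Finite.pi' fun _ => Set.Finite.pi' fun _ => Set.finite_Icc _ _
          refine h1.subset fun e he => ?_
          intro i j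
          exact abs_le.1 (he i j)
        exact hbig.subset fun e he => he.1
      refine ⟨hfin, ?_⟩
      have h1 := hc H hT1
      rw [← Nat.card_coe_set_eq]
      have h2 : (Nat.card {e : Fin N → Fin k → ℤ // (∀ i j, |e i j| ≤ (H : ℤ)) ∧
          ¬ NoAtypical Q m (translate (fun j => ∏ i, (p i : ℂ) ^ e i j) V)} : ℝ) * (2 * (H : ℝ) + 1) ^ t ≤
          c * (2 * (H : ℝ) + 1) ^ (k * N + k - 1) := by exact_mod_cast h1
      have hp1 : (0 : ℝ) < 2 * (H : ℝ) + 1 := by positivity
      have h3 : (2 * (H : ℝ) + 1) ^ (k * N + k - 1) =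
          (2 * (H : ℝ) + 1) ^ ((k : ℝ) * N + k - 1 - t) * (2 * (H : ℝ) + 1) ^ t := by
        rw [← Real.rpow_natCast (2 * (H : ℝ) + 1) t, ← Real.rpow_add hp1, ← Real.rpow_natCast]
        congr 1
        rw [Nat.cast_sub (by omega)]
        push_cast
        ring
      have h4 : (Nat.card {e : Fin N → Fin k → ℤ // (∀ i j, |e i j| ≤ (H : ℤ)) ∧
          ¬ NoAtypical Q m (translate (fun j => ∏ i, (p i : ℂ) ^ e i j) V)} : ℝ) ≤
          c * (2 * (H : ℝ) + 1) ^ ((k : ℝ) * N + k - 1 - t) := by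
        rw [h3, ← mul_assoc] at h2
        exact le_of_mul_le_mul_right h2 (by positivity)
      refine h4.trans ?_
      calc (c : ℝ) * (2 * (H : ℝ) + 1) ^ ((k : ℝ) * N + k - 1 - t)
          ≤ c * (3 * T) ^ ((k : ℝ) * N + k - 1 - t) := by
            apply mul_le_mul_of_nonneg_left _ (Nat.cast_nonneg c)
            apply Real.rpow_le_rpow (by positivity) (by linarith) hs
        _ = c * 3 ^ ((k : ℝ) * N + k - 1 - t) * T ^ ((k : ℝ) * N + k - 1 - t) := by
            rw [Real.mul_rpow (by norm_num) (by linarith)]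
            ring)
    hv hτ hE hρ
  refine ⟨A, hA1, fun x hx => ?_⟩
  obtain ⟨R, hR, hRc⟩ := Pool.Agent.X174.le_of_cube x
  obtain ⟨n₀, hn₀⟩ := hA2 x hx R hR
  refine ⟨n₀, fun n hn e he => ?_⟩
  by_contra hcon
  have h3 := hRc (fun q => (e q.1 q.2 : ℝ)) (v n) ρ (hv n) hρ (fun q => he q.1 q.2)
  refine hn₀ n hn e (fun q => he q.1 q.2) ⟨fun i j => ?_, hcon⟩
  have h4 : (((e i j).natAbs : ℕ) : ℝ) ≤ (R : ℝ) * v n := by
    rw [Nat.cast_natAbs, Int.cast_abs]
    exact h3 (i, j)
  rw [Int.abs_eq_natAbs]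
  exact_mod_cast Nat.le_floor h4

end Pool.Agent.Results.MP_dd1803_nt.TranslatesInCubes
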