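import Pool.Agent.Results.MP_dd1803_nt.EllipticExtensions
import Pool.Agent.X123.ML.Vec

/-!
# ALL translates of a subvariety of an extension of an elliptic curve by the `S`-unit points near almost all points of the torus

Let `G` be the extension of an elliptic curve `E` over `ℂ` by `G_m^k` with the classes `Q_i - O` and `V` an algebraic subset of `G`
of dimension `m` without component of dimension `m` in the fibre over a torsion point of `E`. There is a number `K` such that for
all `N`, `t` with `K t < N`, all sets of `N` primes and all real vectors `z` outside a set of Hausdorff dimension at most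
`(k N + k - 1 - t) / τ`, ALL but finitely many translates `g V` by the points `g = (∏_i p_i ^ e_ij)_j` of the torus with
`|z - g| ≤ |e| ^ (-τ)` have no atypical intersection with any torsion coset of `G`. The same holds for the points near `z` in any
other metric.
-/

set_option autoImplicit false

open scoped ENNReal

namespace Pool.Agent.Results.MP_dd1803_nt.TranslatesNearTargets

open MeasureTheory Pool.Agent.X123.ML
open Pool.Agent.Results.MP_dd1803_nt.EllipticExtensions (E DimLE FibreDimLT NoAtypical)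

/-- **Theorem.** Let `a`, `b`, `Q_i`, `V`, `m` be as in the starting result `EllipticExtensions`. There is a number `K` such that for
all `N` and `t` with `K t < N` and distinct primes `p_i`, `i < N`: (1) Let `s` be a map from the integral matrices `e` to a metric
space and `τ > 0`. There is a set `Z` of Hausdorff dimension at most `(k N + k - 1 - t) / τ` such that for each `z` outside `Z` and
all but finitely many integral matrices `e` with `dist(z, s(e)) ≤ |e| ^ (-τ)`, `|e| = max |e_ij|`, the translate of `V` by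
`(∏_i p_i ^ e_ij)_j` has no atypical intersection with a torsion coset. (2) If `k N + k - 1 - t < k τ`, then for almost all `z` in
`ℝ^k`, for all but finitely many `e` with `|z_j - ∏_i p_i ^ e_ij| ≤ |e| ^ (-τ)` for all `j`, the translate of `V` by this vector has
no atypical intersection with a torsion coset. -/
theorem result (a b : ℂ) (hE : 4 * a ^ 3 + 27 * b ^ 2 ≠ 0) (k m : ℕ) (Q : Fin k → E a b)
    (hQ : ∀ c : Fin k → ℤ, (∃ n : ℕ, 0 < n ∧ n • ∑ i, c i • Q i = 0) →
      ∀ i, Q i ≠ 0 → c i = 0)
    (V : Set (E a b × (Fin k → ℂ))) (hV : DimLE m V)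
    (hfib : ∀ P : E a b, (∃ n : ℕ, 0 < n ∧ n • P = 0) → FibreDimLT m V P) :
    ∃ K : ℕ, ∀ N t : ℕ, K * t < N →
      ∀ p : Fin N → ℕ, (∀ i, (p i).Prime) → Function.Injective p →
        (∀ (M : Type) [MetricSpace M] (s : (Fin N → Fin k → ℤ) → M) (τ : ℝ), 0 < τ →
          ∃ Z : Set M, dimH Z ≤ ENNReal.ofReal (((k : ℝ) * N + k - 1 - t) / τ) ∧ ∀ z : M, z ∉ Z →
            {e : Fin N → Fin k → ℤ | dist z (s e) ≤ ‖e‖ ^ (-τ) ∧
              ¬ NoAtypical Q m (EllipticExtensions.translate (fun j => ∏ i, (p i : ℂ) ^ e i j) V)}.Finite) ∧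
        ∀ τ : ℝ, 0 < τ → (k : ℝ) * N + k - 1 - t < k * τ → ∀ᵐ z : Fin k → ℝ,
          {e : Fin N → Fin k → ℤ | (∀ j, |z j - ∏ i, (p i : ℝ) ^ e i j| ≤ ‖e‖ ^ (-τ)) ∧
            ¬ NoAtypical Q m (EllipticExtensions.translate (fun j => ∏ i, (p i : ℂ) ^ e i j) V)}.Finite := by
  obtain ⟨K, hK⟩ := EllipticExtensions.result a b hE k m Q hQ V hV hfib
  refine ⟨K + 1, fun N t hNt p hp hinj => ?_⟩
  obtain ⟨c, hc⟩ := hK N t (by nlinarith) p hp hinj
  rcases Nat.eq_zero_or_pos k with hn | hn
  · -- there is one matrix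
    subst hn
    exact ⟨fun M _ s τ _ => ⟨∅, by simp, fun z _ => Set.toFinite _⟩,
      fun τ _ _ => Filter.Eventually.of_forall fun z => Set.toFinite _⟩
  have hn1 : (1 : ℝ) ≤ k := by exact_mod_cast hn
  have htN : t ≤ N := by nlinarith
  have htM : t ≤ k * N + k - 1 := by
    have : N ≤ k * N := Nat.le_mul_of_pos_left N hn
    omega
  have hM : ((k * N + k - 1 : ℕ) : ℝ) = (k : ℝ) * N + k - 1 := by
    rw [Nat.cast_sub (by omega)]
    push_cast
    ring
  have h0 : (0 : ℝ) ≤ (k : ℝ) * N + k - 1 - t := by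
    rw [← hM]
    have : (t : ℝ) ≤ ((k * N + k - 1 : ℕ) : ℝ) := by exact_mod_cast htM
    linarith
  have hcount := mat_count {e : Fin N → Fin k → ℤ |
    ¬ NoAtypical Q m (EllipticExtensions.translate (fun j => ∏ i, (p i : ℂ) ^ e i j) V)} htM (c := c) hc
  rw [hM] at hcount
  refine ⟨fun M _ s τ hτ => ?_, fun τ hτ hτ2 => ?_⟩
  · obtain ⟨Z, hZ, hZ2⟩ := near (I := Unit) (fun _ => {e : Fin N → Fin k → ℤ |
      ¬ NoAtypical Q m (EllipticExtensions.translate (fun j => ∏ i, (p i : ℂ) ^ e i j) V)})
      (fun e => ‖e‖) h0 hτ (fun _ => hcount) s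
    exact ⟨Z, hZ, fun z hz => (hZ2 z hz ()).subset fun e he => ⟨he.2, he.1⟩⟩
  · have hrank : (Module.finrank ℝ (Fin k → ℝ) : ℝ) = k := by simp
    have h3 := near_ae (I := Unit) (volume : Measure (Fin k → ℝ)) (fun _ => {e : Fin N → Fin k → ℤ |
      ¬ NoAtypical Q m (EllipticExtensions.translate (fun j => ∏ i, (p i : ℂ) ^ e i j) V)})
      (fun e => ‖e‖) h0 hτ (by rw [hrank]; linarith) (fun _ => hcount)
      (fun e j => ∏ i, (p i : ℝ) ^ e i j)
    filter_upwards [h3] with z hz
    refine (hz ()).subset fun e he => ⟨he.2, ?_⟩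
    rw [dist_pi_le_iff (Real.rpow_nonneg (norm_nonneg _) _)]
    intro j
    rw [Real.dist_eq]
    exact he.1 j

end Pool.Agent.Results.MP_dd1803_nt.TranslatesNearTargets
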